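import Pool.Agent.Helper32.SplDefs
import Pool.Agent.Helper32.SplFull

set_option autoImplicit false

namespace Pool.Agent.Results.MP_93bcc1_an.Full

open Pool.Agent.Helper32.Spl

/-- A triangulation of a closed triangle (15 interior vertices, none singular, 45 interior edges)
for which the space of `C^1` cubic splines has dimension at least 41, while the conjectured formula
gives 40. -/
theorem result :
    ∃ (a b c : ℝ × ℝ) (T : Finset (Finset (ℝ × ℝ))),
      AffineIndependent ℝ ![a, b, c] ∧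
      Triangulates T (convexHull ℝ ({a, b, c} : Set (ℝ × ℝ))) ∧
      T.card = 31 ∧
      (interiorVertices T (convexHull ℝ ({a, b, c} : Set (ℝ × ℝ)))).ncard = 15 ∧
      (interiorEdges T (convexHull ℝ ({a, b, c} : Set (ℝ × ℝ)))).ncard = 45 ∧
      singularVertices T (convexHull ℝ ({a, b, c} : Set (ℝ × ℝ))) = ∅ ∧
      FiniteDimensional ℝ (splineSpace 1 3 T (convexHull ℝ ({a, b, c} : Set (ℝ × ℝ)))) ∧
      41 ≤ Module.finrank ℝ (splineSpace 1 3 T (convexHull ℝ ({a, b, c} : Set (ℝ × ℝ)))) ∧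
      (10 : ℤ) - 7 * ((interiorVertices T (convexHull ℝ ({a, b, c} : Set (ℝ × ℝ)))).ncard : ℤ)
          + 3 * ((interiorEdges T (convexHull ℝ ({a, b, c} : Set (ℝ × ℝ)))).ncard : ℤ)
          + ((singularVertices T (convexHull ℝ ({a, b, c} : Set (ℝ × ℝ)))).ncard : ℤ)
        < (Module.finrank ℝ (splineSpace 1 3 T (convexHull ℝ ({a, b, c} : Set (ℝ × ℝ)))) : ℤ) := by
  refine ⟨_, _, _, Pool.Agent.Helper35.Spl.TT, corners_indep, ?_⟩
  rw [Om_eq]
  have hv : (interiorVertices Pool.Agent.Helper35.Spl.TT Pool.Agent.Helper35.Spl.Om).ncard = 15 := by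
    rw [vertices_eq]
    exact Pool.Agent.Helper35.Spl.count_vertices
  have he : (interiorEdges Pool.Agent.Helper35.Spl.TT Pool.Agent.Helper35.Spl.Om).ncard = 45 := by
    rw [edges_eq]
    exact Pool.Agent.Helper35.Spl.count_edges
  refine ⟨triang, card_TT, hv, he, singular_empty, spline_fin 1 3, dim_spline, ?_⟩
  have h41 : (41 : ℤ) ≤ (Module.finrank ℝ (splineSpace 1 3 Pool.Agent.Helper35.Spl.TT
      Pool.Agent.Helper35.Spl.Om) : ℤ) := by
    exact_mod_cast dim_spline
  rw [hv, he, singular_empty, Set.ncard_empty]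
  push_cast
  linarith

end Pool.Agent.Results.MP_93bcc1_an.Full
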